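import Pool.Agent.MP_ecfd11_lc.H13F.Defs
import Pool.Agent.MP_ecfd11_lc.H3U.SConv
import Pool.Agent.MP_ecfd11_lc.H3U.Sc

/-!
Transfer along an extendibility embedding.
-/

set_option synthInstance.maxSize 4000

namespace Pool.Agent.MP_ecfd11_lc.H13F

open Pool.Agent.MP_ecfd11_lc.H20 Pool.Agent.MP_ecfd11_lc.H13X Pool.Agent.MP_ecfd11_lc.H3U

universe u

open ZFSet Cardinal Order Function

instance (n : Ordinal.{u}) : Fact (V_ n).IsTransitive := ⟨isTransitive_vonNeumann n⟩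

/-- `j : V_m → V_n` is an extendibility embedding and `V_m` is an elementary submodel of `V`. -/
structure XE (m n : Ordinal.{u}) (j : ZFSet.{u} → ZFSet.{u}) (d : ZFSet.{u}) : Prop where
  ord : d.IsOrdinal
  omega : om ∈ d
  mem : d ∈ V_ m
  map : ∀ x ∈ V_ m, j x ∈ V_ n
  el : ∀ (φ : Fml) (v : ℕ → ZFSet.{u}), (∀ i, v i ∈ V_ m) →
    (Sat (V_ m) φ v ↔ Sat (V_ n) φ fun i => j (v i))
  fix : ∀ a ∈ d, j a = a
  big : m.toZFSet ∈ j d
  lim : ∀ a < m, succ a < m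
  refl : ∀ (φ : Fml) (v : ℕ → ZFSet.{u}), (∀ i, v i ∈ V_ m) →
    (Sat (V_ m) φ v ↔ Sat Set.univ φ v)

theorem Extendible.xe {d : ZFSet.{u}} (h : Extendible d) (o : Ordinal.{u}) :
    ∃ m n j, o < m ∧ XE m n j d := by
  obtain ⟨m, m1, m2, m3⟩ := exists_reflect innerModel_univ (max o d.rank)
  rw [vC_ord (isOrdinal_toZFSet m), Ordinal.rank_toZFSet] at m2 m3
  obtain ⟨n, j, j1, j2, j3, j4⟩ := h.2.2 m ((le_max_right _ _).trans_lt m1)
  have l1 : ∀ (k : ℕ) (v : ℕ → ZFSet.{u}), (∀ i, v i ∈ V_ m) →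
      ∃ l ∈ V_ m, ∀ i < k, asg l i = v i := fun k => by
    induction k with
    | zero => exact fun v hv => ⟨_, hv 0, fun _ h => absurd h (Nat.not_lt_zero _)⟩
    | succ k ih =>
      intro v hv
      obtain ⟨l, h1, h2⟩ := ih (fun i => v (i + 1)) fun i => hv _
      refine ⟨pair (v 0) l, m2 _ (hv 0) _ h1, fun i hi => ?_⟩
      rw [asg_pair]
      cases i with
      | zero => rfl
      | succ i => exact h2 i (Nat.lt_of_succ_lt_succ hi)
  refine ⟨m, n, j, (le_max_left _ _).trans_lt m1, h.1, h.2.1,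
    mem_vonNeumann.2 ((le_max_right _ _).trans_lt m1), j1, j2, j3, j4, fun a ha => ?_,
    fun φ v hv => ?_⟩
  · have h1 : a.toZFSet ∈ V_ m := mem_vonNeumann.2 (by rwa [Ordinal.rank_toZFSet])
    have h2 := mem_vonNeumann.1 ((isTransitive_vonNeumann m).mem_trans
      (show ({a.toZFSet} : ZFSet.{u}) ∈ pair a.toZFSet a.toZFSet by simp [pair]) (m2 _ h1 _ h1))
    rwa [rank_singleton, Ordinal.rank_toZFSet] at h2
  · obtain ⟨l, h1, h2⟩ := l1 (fv φ) v hv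
    rw [← sat_congr φ h2, ← sat_congr φ h2, m3 φ l h1]

section closure

variable {m : Ordinal.{u}} {x y : ZFSet.{u}}

theorem sub_V (hx : x ∈ V_ m) (h : y ⊆ x) : y ∈ V_ m :=
  mem_vonNeumann.2 ((rank_mono h).trans_lt (mem_vonNeumann.1 hx))

theorem mem_V (h : y ∈ x) (hx : x ∈ V_ m) : y ∈ V_ m := (isTransitive_vonNeumann m).mem_trans h hx

theorem pow_V (hm : ∀ a < m, succ a < m) (hx : x ∈ V_ m) : powerset x ∈ V_ m :=
  mem_vonNeumann.2 (by rw [rank_powerset]; exact hm _ (mem_vonNeumann.1 hx))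

theorem prod_V (hm : ∀ a < m, succ a < m) (hx : x ∈ V_ m) (hy : y ∈ V_ m) :
    prod x y ∈ V_ m := by
  refine sub_V (pow_V hm (pow_V hm (x := x ∪ y) (mem_vonNeumann.2 (by
    rw [rank_union]; exact max_lt (mem_vonNeumann.1 hx) (mem_vonNeumann.1 hy))))) fun w hw => ?_
  obtain ⟨a, ha, b, hb, rfl⟩ := mem_prod.1 hw
  refine mem_powerset.2 fun p hp => mem_powerset.2 fun q hq => ?_
  rcases mem_pair.1 hp with rfl | rfl
  · exact mem_singleton.1 hq ▸ mem_union.2 (Or.inl ha)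
  · rcases mem_pair.1 hq with rfl | rfl
    exacts [mem_union.2 (Or.inl ha), mem_union.2 (Or.inr hb)]

theorem gr_V (hm : ∀ a < m, succ a < m) (hx : x ∈ V_ m) (hy : y ∈ V_ m)
    {F : ZFSet.{u} → ZFSet.{u}} (h : ∀ a ∈ x, F a ∈ y) : gr F x ∈ V_ m :=
  sub_V (prod_V hm hx hy) (isFunc_gr h).1

end closure

namespace XE

variable {m n : Ordinal.{u}} {j : ZFSet.{u} → ZFSet.{u}} {d a b c e : ZFSet.{u}}
  (h : XE m n j d)
include h

theorem le : V_ m ⊆ V_ n := vonNeumann_subset_of_le (by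
  have := mem_vonNeumann.1 (mem_V h.big (h.map _ h.mem))
  rw [Ordinal.rank_toZFSet] at this
  exact this.le)

theorem lim' : ∀ a < n, succ a < n := fun a ha => by
  have h1 := (h.el (.all (.neg (.all (.neg (.mem 1 0))))) (fun _ => d) fun _ => h.mem).1
    (fun x hx h2 => h2 {x} (mem_vonNeumann.2 (by
      rw [rank_singleton]; exact h.lim _ (mem_vonNeumann.1 hx))) (mem_singleton.2 rfl))
    a.toZFSet (mem_vonNeumann.2 (by rwa [Ordinal.rank_toZFSet]))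
  by_contra h2
  refine h1 fun y hy (h3 : a.toZFSet ∈ y) => h2 ?_
  have := rank_lt_of_mem h3
  rw [Ordinal.rank_toZFSet] at this
  exact (succ_le_of_lt this).trans_lt (mem_vonNeumann.1 hy)

theorem tfA (Q : (ℕ → ZFSet.{u}) → ZFSet.{u} → Prop)
    [hQ : E (V_ n) fun v => Q (fun n => v (n + 1)) (v 0)] (v : ℕ → ZFSet.{u})
    (hv : ∀ i, v i ∈ V_ m) (h1 : ∀ a, a ∈ V_ m → Q v a) :
    ∀ a, a ∈ V_ n → Q (fun i => j (v i)) a := fun a ha => by
  obtain ⟨φ, b, hQ⟩ := hQ.ex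
  exact (hQ (cons a fun i => j (v i)) (cons_in ha fun i => h.map _ (hv i))).2
    ((h.el (.all φ) v hv).1 (fun x hx => (bdd_abs (isTransitive_vonNeumann m) h.le b _
      (cons_in hx hv)).2 ((hQ (cons x v) fun i => h.le (cons_in hx hv i)).1 (h1 x hx))) a ha)

theorem tf (P : (ℕ → ZFSet.{u}) → Prop) [hP : E (V_ n) P] (v : ℕ → ZFSet.{u})
    (hv : ∀ i, v i ∈ V_ m) : P v ↔ P fun i => j (v i) := by
  obtain ⟨φ, b, hP⟩ := hP.ex
  rw [hP v fun i => h.le (hv i), hP _ fun i => h.map _ (hv i),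
    ← bdd_abs (isTransitive_vonNeumann m) h.le b v hv, h.el φ v hv]

theorem tf1 (P : ZFSet.{u} → Prop) [E (V_ n) fun v => P (v 0)] (ha : a ∈ V_ m) :
    P a ↔ P (j a) :=
  h.tf (fun v => P (v 0)) (fun _ => a) fun _ => ha

theorem tf2 (P : ZFSet.{u} → ZFSet.{u} → Prop) [E (V_ n) fun v => P (v 0) (v 1)]
    (ha : a ∈ V_ m) (hb : b ∈ V_ m) : P a b ↔ P (j a) (j b) :=
  h.tf (fun v => P (v 0) (v 1)) (cons a fun _ => b) (cons_in ha fun _ => hb)

theorem tf3 (P : ZFSet.{u} → ZFSet.{u} → ZFSet.{u} → Prop)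
    [E (V_ n) fun v => P (v 0) (v 1) (v 2)] (ha : a ∈ V_ m) (hb : b ∈ V_ m) (hc : c ∈ V_ m) :
    P a b c ↔ P (j a) (j b) (j c) :=
  h.tf (fun v => P (v 0) (v 1) (v 2)) (cons a (cons b fun _ => c))
    (cons_in ha (cons_in hb fun _ => hc))

theorem tf4 (P : ZFSet.{u} → ZFSet.{u} → ZFSet.{u} → ZFSet.{u} → Prop)
    [E (V_ n) fun v => P (v 0) (v 1) (v 2) (v 3)] (ha : a ∈ V_ m) (hb : b ∈ V_ m)
    (hc : c ∈ V_ m) (he : e ∈ V_ m) : P a b c e ↔ P (j a) (j b) (j c) (j e) :=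
  h.tf (fun v => P (v 0) (v 1) (v 2) (v 3)) (cons a (cons b (cons c fun _ => e)))
    (cons_in ha (cons_in hb (cons_in hc fun _ => he)))

theorem tfA1 (P : ZFSet.{u} → ZFSet.{u} → Prop) [E (V_ n) fun v => P (v 1) (v 0)]
    (ha : a ∈ V_ m) (h1 : ∀ x, x ∈ V_ m → P a x) : ∀ x, x ∈ V_ n → P (j a) x :=
  h.tfA (fun v x => P (v 0) x) (fun _ => a) (fun _ => ha) h1

theorem tfA2 (P : ZFSet.{u} → ZFSet.{u} → ZFSet.{u} → Prop)
    [E (V_ n) fun v => P (v 1) (v 2) (v 0)] (ha : a ∈ V_ m) (hb : b ∈ V_ m)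
    (h1 : ∀ x, x ∈ V_ m → P a b x) : ∀ x, x ∈ V_ n → P (j a) (j b) x :=
  h.tfA (fun v x => P (v 0) (v 1) x) (cons a fun _ => b) (cons_in ha fun _ => hb) h1

theorem tfA3 (P : ZFSet.{u} → ZFSet.{u} → ZFSet.{u} → ZFSet.{u} → Prop)
    [E (V_ n) fun v => P (v 1) (v 2) (v 3) (v 0)] (ha : a ∈ V_ m) (hb : b ∈ V_ m)
    (hc : c ∈ V_ m) (h1 : ∀ x, x ∈ V_ m → P a b c x) :
    ∀ x, x ∈ V_ n → P (j a) (j b) (j c) x :=
  h.tfA (fun v x => P (v 0) (v 1) (v 2) x) (cons a (cons b fun _ => c))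
    (cons_in ha (cons_in hb fun _ => hc)) h1

theorem mem_iff (ha : a ∈ V_ m) (hb : b ∈ V_ m) : j a ∈ j b ↔ a ∈ b :=
  (h.tf2 (fun a b => a ∈ b) ha hb).symm

theorem jmem (hab : a ∈ b) (hb : b ∈ V_ m) : j a ∈ j b := (h.mem_iff (mem_V hab hb) hb).2 hab

theorem jsub (hab : a ⊆ b) (hb : b ∈ V_ m) : j a ⊆ j b :=
  (h.tf2 (fun a b => a ⊆ b) (sub_V hb hab) hb).1 hab

theorem jord (ho : a.IsOrdinal) (ha : a ∈ V_ m) : (j a).IsOrdinal :=
  (h.tf1 (fun a => a.IsOrdinal) ha).1 ho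

theorem inj (ha : a ∈ V_ m) (hb : b ∈ V_ m) (e : j a = j b) : a = b :=
  (h.tf2 (fun a b => a = b) ha hb).2 e

theorem pmem (hp : pair a b ∈ c) (hc : c ∈ V_ m) : pair (j a) (j b) ∈ j c :=
  have h1 := mem_V hp hc
  (h.tf3 (fun a b c => pair a b ∈ c) (fst_in (isTransitive_vonNeumann m) h1)
    (snd_in (isTransitive_vonNeumann m) h1) hc).1 hp

theorem jpow (ha : a ∈ V_ m) (hb : b ⊆ j a) : b ∈ j (powerset a) :=
  h.tfA2 (fun a P x => x ⊆ a → x ∈ P) ha (pow_V h.lim ha) (fun _ _ hx => mem_powerset.2 hx) b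
    (sub_V (h.map _ ha) hb) hb

theorem img_sub (ha : a ∈ V_ m) : img j a ⊆ j a := fun z hz => by
  obtain ⟨x, hx, rfl⟩ := mem_img.1 hz
  exact h.jmem hx ha

/-- Ordinals in the domain lie below `j d`. -/
theorem mem_jd (ho : a.IsOrdinal) (ha : a ∈ V_ m) : a ∈ j d :=
  (h.jord h.ord h.mem).mem_trans ((ho.rank_lt_iff_mem (isOrdinal_toZFSet m)).1
    (by rw [Ordinal.rank_toZFSet]; exact mem_vonNeumann.1 ha)) h.big

end XE

/-- Extendibility embeddings map ordinal definable sets to ordinal definable sets. -/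
theorem od_map {G : ZFSet.{u}} (hG : OD Set.univ G) : ∃ o : Ordinal.{u},
    ∀ {m n j d}, XE m n j d → o < m → G ∈ V_ m ∧ OD Set.univ (j G) := by
  obtain ⟨-, φ, w, hw, h⟩ := hG
  refine ⟨max (rank G) (⨆ i, rank (w i)), fun {m n j d} x ho => ?_⟩
  have g1 : G ∈ V_ m := mem_vonNeumann.2 ((le_max_left _ _).trans_lt ho)
  have w1 : ∀ i, w i ∈ V_ m := fun i => mem_vonNeumann.2
    (((Ordinal.le_iSup (fun i => rank (w i)) i).trans (le_max_right _ _)).trans_lt ho)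
  have e : ∀ (z : ZFSet.{u}), (fun i => j (cons z w i)) = cons (j z) fun i => j (w i) :=
    fun z => funext fun i => by cases i <;> rfl
  have e' : ∀ (y z : ZFSet.{u}) (w : ℕ → ZFSet.{u}),
      (fun i => cons y (cons z w) (up Nat.succ i)) = cons y w :=
    fun y z w => funext fun i => by cases i <;> rfl
  have h1 := (x.el φ _ (cons_in g1 w1)).1 ((x.refl φ _ (cons_in g1 w1)).2 ((h G trivial).2 rfl))
  have h2 := (x.el (.all (.neg (.and (ren (up Nat.succ) φ) (.neg (.eq 0 1))))) _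
    (cons_in g1 w1)).1 ((x.refl _ _ (cons_in g1 w1)).2 fun y _ h3 => h3.2 (by
      have := h3.1
      rw [sat_ren, e'] at this
      exact (h y trivial).1 this))
  rw [e] at h1 h2
  refine ⟨g1, od_iff.2 ⟨fun _ _ => trivial, ?_⟩⟩
  have t0 : Tm Set.univ On (fun _ => V_ n) := by
    have : Tm Set.univ On (fun _ => vC Set.univ n.toZFSet) := inferInstance
    rwa [vC_ord (isOrdinal_toZFSet n), Ordinal.rank_toZFSet] at this
  have t1 := Df.sat (C := Set.univ) (A := On) φ (fun _ => (V_ n : Set ZFSet.{u}))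
    (inferInstanceAs (Df Set.univ On fun v => v 0 ∈ V_ n)) (fun _ _ _ _ => trivial)
    (tcons (fun v => v 0) fun i _ => j (w i))
    (Tm.tcons inferInstance fun i => Tm.ofOrd (x.jord (hw i) (w1 i)))
  refine Df.of (fun v => v 0 ∈ V_ n ∧ Sat (V_ n) φ fun i =>
    tcons (fun v => v 0) (fun i _ => j (w i)) i v) inferInstance fun v _ => ?_
  rw [show (fun i => tcons (fun v => v 0) (fun i _ => j (w i)) i v) =
    cons (v 0) fun i => j (w i) from funext fun i => by cases i <;> rfl]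
  refine ⟨fun h3 => by_contra fun h4 => h2 _ h3.1 ⟨?_, h4⟩, fun h3 => ?_⟩
  · rw [sat_ren, e']
    exact h3.2
  · rw [h3]
    exact ⟨x.map _ g1, h1⟩

end Pool.Agent.MP_ecfd11_lc.H13F
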