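import Pool.Agent.MP_ecfd11_lc.Defs

/-!
Extendible cardinals.
-/

namespace Pool.Agent.MP_ecfd11_lc.H13F

universe u

open ZFSet

/-- `d` is extendible: `d` is an uncountable ordinal and for every `m > d` there is an elementary
embedding `j : V_m → V_n` that fixes every ordinal below `d` and has `j d > m`. -/
def Extendible (d : ZFSet.{u}) : Prop :=
  d.IsOrdinal ∧ Ordinal.omega0.toZFSet ∈ d ∧ ∀ m : Ordinal.{u}, d.rank < m →
    ∃ (n : Ordinal.{u}) (j : ZFSet.{u} → ZFSet.{u}),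
      (∀ x ∈ vonNeumann m, j x ∈ vonNeumann n) ∧
      (∀ (φ : Fml) (v : ℕ → ZFSet.{u}), (∀ i, v i ∈ vonNeumann m) →
        (Sat (vonNeumann m) φ v ↔ Sat (vonNeumann n) φ fun i => j (v i))) ∧
      (∀ a ∈ d, j a = a) ∧ m.toZFSet ∈ j d

end Pool.Agent.MP_ecfd11_lc.H13F
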