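import Pool.Agent.MP_ecfd11_lc.H13F.Main
import Pool.Agent.MP_ecfd11_lc.H3E.Min

/-!
Fresh sets over HOD above an extendible cardinal have length of cofinality `ω`.
-/

set_option synthInstance.maxSize 4000

namespace Pool.Agent.MP_ecfd11_lc.H13F

open Pool.Agent.MP_ecfd11_lc.H20 Pool.Agent.MP_ecfd11_lc.H13X Pool.Agent.MP_ecfd11_lc.H3U
  Pool.Agent.MP_ecfd11_lc.H3E

universe u

open ZFSet Cardinal Order Function Filter

variable {d r x Y : ZFSet.{u}}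

theorem od_fin (F : ZFSet.{u} → ZFSet.{u}) {i : ZFSet.{u}} (hi : i ∈ om)
    (hF : ∀ j ∈ i, OD Set.univ (F j)) : ∀ x, x ⊆ img F i → OD Set.univ x := by
  obtain ⟨o, ho, rfl⟩ := Ordinal.mem_toZFSet_iff.1 hi
  obtain ⟨n, rfl⟩ := Ordinal.lt_omega0.1 ho
  clear ho hi
  change ∀ i ∈ nat n, _ at hF
  change ∀ x, x ⊆ img F (nat n) → _
  induction n with
  | zero =>
    intro x hx
    rw [show x = ∅ from (eq_empty x).2 fun z hz => by
      obtain ⟨i, hi, -⟩ := mem_img.1 (hx hz)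
      simp [nat] at hi]
    exact od_iff.2 inferInstance
  | succ n ih =>
    intro x hx
    rw [nat_succ] at hF hx
    have h1 := ih (fun i hi => hF i (mem_insert_of_mem _ hi)) (x ∩ img F (nat n))
      fun z hz => (mem_inter.1 hz).2
    have h2 : ∀ z ∈ x, z = F (nat n) ∨ z ∈ x ∩ img F (nat n) := fun z hz => by
      obtain ⟨i, hi, rfl⟩ := mem_img.1 (hx hz)
      exact (mem_insert_iff.1 hi).imp (congrArg F) fun h => mem_inter.2 ⟨hz, mem_img.2 ⟨i, h, rfl⟩⟩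
    by_cases e : F (nat n) ∈ x
    · have := od_iff.1 h1
      have := od_iff.1 (hF _ (mem_insert _ _))
      rw [show x = insert (F (nat n)) (x ∩ img F (nat n)) from ZFSet.ext fun z =>
        ⟨fun hz => mem_insert_iff.2 (h2 z hz), fun hz =>
          (mem_insert_iff.1 hz).elim (fun h => h ▸ e) fun h => (mem_inter.1 h).1⟩]
      generalize x ∩ img F (nat n) = w at *
      generalize F (nat n) = w' at *
      exact od_iff.2 inferInstance
    · rwa [show x = x ∩ img F (nat n) from ZFSet.ext fun z =>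
        ⟨fun hz => (h2 z hz).resolve_left fun h => e (h ▸ hz), fun hz => (mem_inter.1 hz).1⟩]

/-- An ordinal of cofinality `ω` without countable cofinal subsets in HOD carries a fresh set. -/
theorem fresh_of_cof (hr : CofOmega Set.univ r)
    (hc : ∀ y, HOD Set.univ y → y ⊆ r → card y ≤ ℵ₀ → ∃ c ∈ r, ∀ z ∈ y, z ∈ c) :
    ∃ x, x ⊆ prod r {∅} ∧ (∀ a ∈ r, HOD Set.univ (x ∩ prod a {∅})) ∧ ¬ HOD Set.univ x := by
  obtain ⟨ro, f, -, f1, f2⟩ := hr
  have oo : om.{u}.IsOrdinal := isOrdinal_toZFSet _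
  have f3 : ∀ b ∈ r, ∃ n ∈ om, b ∈ app f n := fun b hb => by
    obtain ⟨n, y, h1, h2⟩ := f2 b hb
    exact ⟨n, (pair_mem_prod.1 (f1.1 h1)).1, f1.app_eq h1 ▸ h2⟩
  have f4 : ∀ n ∈ om, app f n ∈ r := fun n hn => f1.app_mem' hn
  have h0 : HOD Set.univ (∅ : ZFSet.{u}) := hod_ord isOrdinal_empty
  refine ⟨img (fun n => pair (app f n) ∅) (om.sep fun n => ∀ m ∈ n, app f m ∈ app f n),
    fun z hz => ?_, fun a ha => ?_, fun h => ?_⟩
  · obtain ⟨n, hn, rfl⟩ := mem_img.1 hz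
    exact pair_mem_prod.2 ⟨f4 n (mem_sep.1 hn).1, mem_singleton.2 rfl⟩
  · obtain ⟨N, n1, n2⟩ := f3 a ha
    have h1 : ∀ j ∈ om, HOD Set.univ (pair (app f j) ∅) := fun j hj =>
      hod_pair (hod_ord (ro.mem (f4 j hj))) h0
    refine hod_of (od_fin (fun n => pair (app f n) ∅) n1
      (fun j hj => (h1 j (oo.mem_trans hj n1)).self) _ fun z hz => ?_) fun z hz => ?_
    · obtain ⟨n, hn, rfl⟩ := mem_img.1 (mem_inter.1 hz).1
      have h2 := (pair_mem_prod.1 (mem_inter.1 hz).2).1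
      have h3 := (ro.mem (f4 N n1)).mem_trans h2 n2
      rcases (oo.mem (mem_sep.1 hn).1).mem_trichotomous (oo.mem n1) with h4 | rfl | h4
      exacts [mem_img.2 ⟨n, h4, rfl⟩, absurd h3 (mem_irrefl _),
        absurd h3 (mem_asymm ((mem_sep.1 hn).2 N h4))]
    · obtain ⟨n, hn, rfl⟩ := mem_img.1 (mem_inter.1 hz).1
      exact h1 n (mem_sep.1 hn).1
  · obtain ⟨x, hx⟩ : ∃ x, x = img (fun n => pair (app f n) ∅)
      (om.sep fun n => ∀ m ∈ n, app f m ∈ app f n) := ⟨_, rfl⟩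
    rw [← hx] at h
    have := hod_tm h
    have h1 : img fst x ⊆ r := fun z hz => by
      obtain ⟨w, hw, rfl⟩ := mem_img.1 hz
      obtain ⟨n, hn, rfl⟩ := mem_img.1 (hx ▸ hw)
      rw [fst_pair]
      exact f4 n (mem_sep.1 hn).1
    obtain ⟨c, c1, c2⟩ := hc (img fst x) (hod_of_subset ro h1 (od_iff.2 inferInstance)) h1
      ((card_img_le _ _).trans (hx ▸ (card_img_le _ _).trans
        ((card_mono sep_subset).trans card_om.le)))
    obtain ⟨n, n1, n2⟩ := f3 c c1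
    obtain ⟨k, ⟨k1, k2⟩, k3⟩ := exists_min_mem (p := fun n => n ∈ om ∧ c ∈ app f n) ⟨n1, n2⟩
    refine mem_asymm k2 (c2 _ (mem_img.2 ⟨pair (app f k) ∅, hx ▸ mem_img.2
      ⟨k, mem_sep.2 ⟨k1, fun m hm => ?_⟩, rfl⟩, fst_pair _ _⟩))
    have m1 := oo.mem_trans hm k1
    exact (ro.mem (f4 m m1)).mem_of_subset_of_mem (ro.mem (f4 k k1))
      (((ro.mem c1).notMem_iff_subset (ro.mem (f4 m m1))).1 fun h => k3 m hm ⟨m1, h⟩) k2

theorem no_fresh (hd : Extendible d) (hr : r.IsOrdinal)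
    (hc : ∀ y, HOD Set.univ y → y ⊆ r → card y < card d → ∃ c ∈ r, ∀ z ∈ y, z ∈ c)
    (hn : ¬ CofOmega Set.univ r) (hx : x ⊆ prod r Y)
    (h : ∀ a ∈ r, HOD Set.univ (x ∩ prod a Y)) : HOD Set.univ x := by
  by_cases hb : H57F.Bd (card d) r
  · exact main hd hr hb hx h
  obtain ⟨m, n, j, -, e⟩ := hd.xe 0
  have d0 := e.regular.aleph0_lt
  have la : ∀ b ∈ r, ∃ c ∈ r, b ∈ c := fun b hb => by
    have : Tm Set.univ On (fun _ => b) := Tm.ofOrd (hr.mem hb)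
    have h1 : ({b} : ZFSet.{u}) ⊆ r := fun z hz => mem_singleton.1 hz ▸ hb
    obtain ⟨c, c1, c2⟩ := hc {b} (hod_of_subset hr h1 (od_iff.2 inferInstance)) h1
      (card_singleton.trans_lt (one_lt_aleph0.trans d0))
    exact ⟨c, c1, c2 b (mem_singleton.2 rfl)⟩
  obtain ⟨c0, c1, -⟩ := hc ∅ (hod_ord isOrdinal_empty) (empty_subset _)
    (card_empty.trans_lt (aleph0_pos.trans d0))
  have hu := unc_of_not_cof hr la c1 hn
  obtain ⟨c, c2, c3⟩ : ∃ c, Club r c ∧ card c < card d := by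
    refine Sm.exists_club e.regular hr ?_
    by_contra h1
    refine hb fun y y1 y2 => by_contra fun h2 => h1 ⟨y, y1, y2.not_ge, fun b b1 => ?_⟩
    by_contra h3
    obtain ⟨c, c1, c2⟩ := la b b1
    refine h2 ⟨c, c1, fun z hz => (hr.mem (y1 hz)).mem_of_subset_of_mem (hr.mem c1) ?_ c2⟩
    exact ((hr.mem b1).notMem_iff_subset (hr.mem (y1 hz))).1 fun h4 => h3 ⟨z, hz, h4⟩
  have x1 : ∀ z ∈ x, ∃ a ∈ r, z ∈ prod a Y := fun z hz => by
    obtain ⟨a, ha, w, hw, rfl⟩ := mem_prod.1 (hx hz)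
    obtain ⟨c, c1, c2⟩ := la a ha
    exact ⟨c, c1, pair_mem_prod.2 ⟨c2, hw⟩⟩
  have x2 : ∀ z ∈ x, HOD Set.univ z := fun z hz => by
    obtain ⟨a, a1, a2⟩ := x1 z hz
    exact (h a a1).mem (mem_inter.2 ⟨hz, a2⟩)
  have := od_V Y.rank
  have : Tm Set.univ On (fun _ => r) := Tm.ofOrd hr
  have y2 : ∀ a ∈ r, HOD Set.univ (x ∩ prod a (V_ Y.rank)) := fun a ha => by
    rw [show x ∩ prod a (V_ Y.rank) = x ∩ prod a Y from ZFSet.ext fun z => ?_]
    · exact h a ha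
    simp only [mem_inter]
    refine and_congr_right fun hz => ?_
    obtain ⟨b, -, w, hw, rfl⟩ := mem_prod.1 (hx hz)
    simp only [pair_mem_prod, hw, ord_mem_V hw]
  refine lemB (a := d) (Z := (prod r (V_ Y.rank)).sep fun z => HOD Set.univ z)
    (fun k hk => ?_) d0 hu c2 c3 (hod_of (od_iff.2 inferInstance) fun z hz => (mem_sep.1 hz).2)
    (fun a => prod a (V_ Y.rank)) (fun z hz => ?_) (fun z hz => ?_) (fun W w1 w2 w3 => ?_) y2
  · have h1 := e.sl (e.regular.mem_of_card_lt (isOrdinal_toZFSet k.ord) (by rwa [card_ord']))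
    rwa [card_powerset, card_ord'] at h1
  · obtain ⟨a, ha, w, hw, rfl⟩ := mem_prod.1 (mem_sep.1 hz).1
    exact ⟨a, ha, fun s _ hs => pair_mem_prod.2 ⟨hs, hw⟩⟩
  · obtain ⟨a, ha, w, hw, rfl⟩ := mem_prod.1 (hx hz)
    exact mem_sep.2 ⟨pair_mem_prod.2 ⟨ha, ord_mem_V hw⟩, x2 _ hz⟩
  · have := hod_tm w1
    have h1 : img fst W ⊆ r := fun z hz => by
      obtain ⟨w, hw, rfl⟩ := mem_img.1 hz
      obtain ⟨a, ha, b, -, rfl⟩ := mem_prod.1 (mem_sep.1 (w2 hw)).1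
      rwa [fst_pair]
    obtain ⟨b, b1, b2⟩ := hc (img fst W) (hod_of_subset hr h1 (od_iff.2 inferInstance)) h1
      ((card_img_le _ _).trans_lt (not_le.1 w3))
    rw [show x ∩ W = x ∩ prod b (V_ Y.rank) ∩ W from ZFSet.ext fun z => ?_]
    · exact hod_inter (y2 b b1) w1.self
    simp only [mem_inter]
    refine and_congr_left fun hz => (and_iff_left ?_).symm
    obtain ⟨a, -, w, hw, rfl⟩ := mem_prod.1 (mem_sep.1 (w2 hz)).1
    exact pair_mem_prod.2 ⟨b2 a (mem_img.2 ⟨_, hz, fst_pair _ _⟩), hw⟩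

theorem fresh_iff (hd : Extendible d) (hr : r.IsOrdinal)
    (hc : ∀ y, HOD Set.univ y → y ⊆ r → card y < card d → ∃ c ∈ r, ∀ z ∈ y, z ∈ c) :
    (∀ Y x, x ⊆ prod r Y → (∀ a ∈ r, HOD Set.univ (x ∩ prod a Y)) → HOD Set.univ x) ↔
      ¬ CofOmega Set.univ r := by
  refine ⟨fun h hr' => ?_, fun hn _ _ => no_fresh hd hr hc hn⟩
  obtain ⟨m, n, j, -, e⟩ := hd.xe 0
  obtain ⟨x, x1, x2, x3⟩ := fresh_of_cof hr' fun y y1 y2 y3 =>
    hc y y1 y2 (y3.trans_lt e.regular.aleph0_lt)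
  exact x3 (h _ x x1 x2)

end Pool.Agent.MP_ecfd11_lc.H13F
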