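import Pool.Agent.MP_ecfd11_lc.H13F.Sc

/-!
An extendible cardinal is a strong limit and lies above a strongly compact cardinal.
-/

set_option synthInstance.maxSize 4000

namespace Pool.Agent.MP_ecfd11_lc.H13F

open Pool.Agent.MP_ecfd11_lc.H20 Pool.Agent.MP_ecfd11_lc.H13X Pool.Agent.MP_ecfd11_lc.H3U

universe u

open ZFSet Cardinal Order Function Filter

theorem scI_of_sc {d l : ZFSet.{u}} {k : Ordinal.{u}} (h : StronglyCompact d l)
    (hk : ∀ a < k, succ a < k) (d1 : d ∈ V_ k) (l1 : l ∈ V_ k) : ScI (V_ k) d l := by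
  obtain ⟨hd, U, hU, u1, u2⟩ := h
  have p2 : ∀ p : ZFSet.{u} → Prop, (∀ᶠ s in (U : Filter ZFSet.{u}), p s) → (powerset l).sep p ∈
      (powerset (powerset l)).sep fun Y => ∀ᶠ s in (U : Filter ZFSet.{u}), s ∈ Y := fun p hp =>
    mem_sep.2 ⟨mem_powerset.2 sep_subset, by
      filter_upwards [u1, hp] with s h1 h2 using mem_sep.2 ⟨mem_powerset.2 h1.1, h2⟩⟩
  refine ⟨⟨hd.1, fun x hx f _ f1 f2 => ?_⟩, (powerset (powerset l)).sep fun Y =>
    ∀ᶠ s in (U : Filter ZFSet.{u}), s ∈ Y, sub_V (pow_V hk (pow_V hk l1)) sep_subset,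
    fun x hx f _ f1 f2 f3 => ⟨_, p2 (fun s => ∀ a y, pair a y ∈ f → s ∈ y) ?_,
      fun a y h1 s hs => (mem_sep.1 hs).2 a y h1⟩,
    fun Y hY => (mem_sep.1 hY).2.exists, fun X _ => ?_,
    ⟨_, p2 (Sml (V_ k) d) ?_, fun s hs => ⟨mem_powerset.1 (mem_sep.1 hs).1, (mem_sep.1 hs).2⟩⟩,
    fun a ha => ⟨_, p2 (fun s => a ∈ s) (u2 a ha), fun s hs => (mem_sep.1 hs).2⟩⟩
  · classical
    obtain ⟨b, h1, h2⟩ := hd.bddV (hd.card_lt hx) (fun i => if app f i ∈ d then app f i else x)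
      fun i _ => by split_ifs with e; exacts [e, hx]
    refine ⟨b, h1, fun a y h3 => ?_⟩
    have := h2 a (f2 a y h3).1
    rwa [app_eq h3 (f1 a y h3), if_pos (f2 a y h3).2] at this
  · filter_upwards [(eventually_cardinal_ball (l := (U : Filter ZFSet.{u}))
      (S := (x : Set ZFSet.{u})) (p := fun s i _ => s ∈ app f i) (by
        have := cardinalMk_coe_sort (x := x)
        change #x < _
        rw [this]; exact lift_lt.2 (hd.card_lt hx))).2 fun i hi => by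
          obtain ⟨y, hy⟩ := f2 i hi
          rw [app_eq hy (f1 i y hy)]
          exact (mem_sep.1 (f3 i y hy).2).2] with s hs a y h1
    exact app_eq h1 (f1 a y h1) ▸ hs a (f3 a y h1).1
  · by_cases e : ∀ᶠ s in (U : Filter ZFSet.{u}), s ∈ X
    · exact ⟨_, p2 _ e, Or.inl fun s hs => (mem_sep.1 hs).2⟩
    · exact ⟨_, p2 _ (Ultrafilter.eventually_not.2 e), Or.inr fun s hs => (mem_sep.1 hs).2⟩
  · filter_upwards [u1] with s hs
    have h1 : (card s).ord.toZFSet ∈ d :=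
      hd.mem_of_card_lt (isOrdinal_toZFSet _) (by rw [card_ord']; exact hs.2)
    obtain ⟨G, hG⟩ := exists_surj_of_card_le (a := (card s).ord.toZFSet) (b := s)
      (by rw [card_ord'])
    refine ⟨_, h1, (prod (card s).ord.toZFSet l).sep fun p => p ∈ gr G (card s).ord.toZFSet,
      sub_V (prod_V hk (mem_V h1 d1) l1) sep_subset, fun a y h2 z h3 =>
        sv_gr _ _ a y (mem_sep.1 h2).2 z (mem_sep.1 h3).2, fun b hb => ?_⟩
    obtain ⟨a, h2, h3⟩ := hG b hb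
    exact ⟨a, h2, mem_sep.2 ⟨pair_mem_prod.2 ⟨h2, hs.1 hb⟩, pair_mem_gr.2 ⟨h2, h3⟩⟩⟩

namespace XE

variable {m n : Ordinal.{u}} {j : ZFSet.{u} → ZFSet.{u}} {d a : ZFSet.{u}} (h : XE m n j d)
include h

theorem jV (ha : a.IsOrdinal) (a1 : a ∈ V_ m) : j (V_ a.rank) = V_ (j a).rank := by
  have t0 := isOrdinal_succ ha
  have t1 : insert a a ∈ V_ m := mem_vonNeumann.2 (by
    rw [rank_insert]; exact max_lt (h.lim _ (mem_vonNeumann.1 a1)) (mem_vonNeumann.1 a1))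
  have g0 : hier (insert a a) ∈ V_ m := gr_V h.lim t1 (y := V_ (insert a a).rank)
    (mem_vonNeumann.2 (by rw [rank_vonNeumann]; exact mem_vonNeumann.1 t1))
    fun b hb => mem_vonNeumann.2 (by rw [rank_vonNeumann]; exact rank_lt_of_mem hb)
  have g1 : RecH (V_ n) (j (hier (insert a a))) := fun b Y hY x hx =>
    h.tfA1 (fun g x => ∀ a Y, pair a Y ∈ g →
      (x ∈ Y ↔ ∃ b, b ∈ a ∧ ∃ Z, pair b Z ∈ g ∧ x ⊆ Z)) g0
      (fun x hx b Y hY => recH_hier _ t0 b Y hY x hx) x hx b Y hY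
  exact g1.eq (h.map _ g0) (h.jord t0 t1)
    ((h.tf2 (fun t g => ∀ b, b ∈ t → ∃ Y, pair b Y ∈ g) t1 g0).1
      fun b hb => ⟨_, pair_mem_gr.2 ⟨hb, rfl⟩⟩) _ (h.jmem (mem_insert _ _) t1) _
    (h.pmem (pair_mem_gr.2 ⟨mem_insert _ _, rfl⟩) g0)

theorem sl (ha : a ∈ d) : card (powerset a) < card d := by
  by_contra h0
  obtain ⟨G, g1, g2⟩ := exists_inj_of_card_le (not_lt.1 h0)
  have a1 := mem_V ha h.mem
  have g0 := gr_V h.lim h.mem (pow_V h.lim a1) g1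
  obtain ⟨y, y1, y2⟩ := (h.tf3 (fun d g a => ∀ i, i ∈ d → ∃ y, pair i y ∈ g ∧ y ⊆ a) h.mem g0
    a1).1 (fun i hi => ⟨_, pair_mem_gr.2 ⟨hi, rfl⟩, mem_powerset.1 (g1 i hi)⟩) d
    (h.mem_jd h.ord h.mem)
  rw [h.fix a ha] at y2
  have y0 := sub_V a1 y2
  have y3 : j y = y := by
    have h1 : ∀ z ∈ a, z ∈ j y ↔ z ∈ y := fun z hz => by
      rw [← h.mem_iff (mem_V hz a1) y0, h.fix z (h.ord.mem_trans hz ha)]
    exact ZFSet.ext fun z => ⟨fun hz => (h1 z (h.fix a ha ▸ h.jsub y2 a1 hz)).1 hz,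
      fun hz => (h1 z (y2 hz)).2 hz⟩
  obtain ⟨i, i1, i2⟩ := (h.tf3 (fun d g y => ∃ i, i ∈ d ∧ pair i y ∈ g) h.mem g0 y0).2
    ⟨d, h.mem_jd h.ord h.mem, y3.symm ▸ y1⟩
  have i3 := h.pmem i2 g0
  rw [h.fix i i1, y3] at i3
  have i4 := (h.tf2 (fun d g => ∀ i y, pair i y ∈ g → ∀ k, k ∈ d → pair k y ∈ g → i = k) h.mem
    g0).1 (fun i y h1 k h2 h3 => g2 i (pair_mem_gr.1 h1).1 k h2
      ((pair_mem_gr.1 h1).2.trans (pair_mem_gr.1 h3).2.symm)) i y i3 d (h.mem_jd h.ord h.mem) y1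
  exact mem_irrefl d (i4 ▸ i1)

end XE

theorem Extendible.sc {d l : ZFSet.{u}} (hd : Extendible d) (hl : l.IsOrdinal) :
    StronglyCompact d l := by
  obtain ⟨m, n, j, h1, h⟩ := hd.xe l.rank
  exact h.sc hl (mem_vonNeumann.2 h1)

theorem Extendible.exists_sc {d l : ZFSet.{u}} (hd : Extendible d) (hl : l.IsOrdinal) :
    ∃ e ∈ d, StronglyCompact e l := by
  obtain ⟨m, n, j, h1, h⟩ := hd.xe l.rank
  have d0 : V_ d.rank ∈ V_ m := mem_vonNeumann.2 (by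
    rw [rank_vonNeumann]; exact mem_vonNeumann.1 h.mem)
  have hr := h.jreg h.regular h.mem
  have hk : ∀ a < (j d).rank, succ a < (j d).rank := fun a ha => by
    obtain ⟨b, b1, b2⟩ := (unc_of_regular hr).succ (mem_of_rank hr.1 ha)
    have := rank_lt_of_mem b2
    rw [Ordinal.rank_toZFSet] at this
    exact (succ_le_of_lt this).trans_lt (rank_lt_of_mem b1)
  have d1 := h.mem_jd h.ord h.mem
  obtain ⟨e, e1, e2, e3⟩ := (h.tf3 (fun N t o => ∃ e, e ∈ t ∧ o ∈ e ∧ ∀ l, l ∈ t → ScI N e l)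
    d0 h.mem (mem_V h.omega h.mem)).2 ⟨d, d1, by rw [h.fix _ h.omega]; exact h.omega,
      fun l hl => by
        rw [h.jV h.ord h.mem]
        exact scI_of_sc (hd.sc (hr.1.mem hl)) hk (ord_mem_V d1) (ord_mem_V hl)⟩
  have l1 := h.mem_jd hl (mem_vonNeumann.2 h1)
  have h2 := (h.tf3 (fun N t e => ∀ l, l ∈ t → ScI N e l) d0 h.mem (mem_V e1 h.mem)).1 e3 l l1
  rw [h.fix e e1, h.jV h.ord h.mem] at h2
  exact ⟨e, e1, h2.sc e2 (ord_mem_V (hr.1.mem_trans e1 d1)) (ord_mem_V l1)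
    (isTransitive_vonNeumann _) (fun _ hx _ hy => sub_V hx hy) (fun _ hx => pow_V hk hx)
    fun _ hx _ hy => prod_V hk hx hy⟩

end Pool.Agent.MP_ecfd11_lc.H13F
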