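import Pool.Agent.MP_ecfd11_lc.H13F.Sol
import Pool.Agent.MP_ecfd11_lc.H13F.Low
import Pool.Agent.MP_ecfd11_lc.H57F.Gap
import Pool.Agent.MP_ecfd11_lc.H3U.Lift

/-!
No fresh sets over HOD above an extendible cardinal.
-/

set_option synthInstance.maxSize 4000

namespace Pool.Agent.MP_ecfd11_lc.H13F

open Pool.Agent.MP_ecfd11_lc.H20 Pool.Agent.MP_ecfd11_lc.H13X Pool.Agent.MP_ecfd11_lc.H3U

universe u

open ZFSet Cardinal Order Function Filter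

variable {d r x Y : ZFSet.{u}}

theorem od_V (o : Ordinal.{u}) : Tm Set.univ On fun _ => V_ o := by
  have : Tm Set.univ On (fun _ => vC Set.univ o.toZFSet) := inferInstance
  rwa [vC_ord (isOrdinal_toZFSet o), Ordinal.rank_toZFSet] at this

/-- If the embeddings are definable on a definable superset of `x`, then `x` is definable. -/
theorem core (hd : Extendible d) (hr : r.IsOrdinal) (hc : H57F.Bd (card d) r) (hx : x ⊆ prod r Y)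
    (h : ∀ a ∈ r, OD Set.univ (x ∩ prod a Y)) {X : ZFSet.{u}} (x0 : OD Set.univ X) (x1 : x ⊆ X)
    (x2 : ∀ z ∈ X, ∃ a ∈ r, ∃ w, z = pair a w) (o : Ordinal.{u})
    (H : ∀ {m n j}, XE m n j d → o < m → ∃ R, OD Set.univ R ∧
      ∀ z ∈ X, ∀ w, pair z w ∈ R ↔ w = j z) : OD Set.univ x := by
  obtain ⟨k, F, k0, f0, f1⟩ := od_list (img (fun a => x ∩ prod a Y) r) fun A hA => by
    obtain ⟨a, ha, rfl⟩ := mem_img.1 hA
    exact h a ha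
  have := Tm.one (C := Set.univ) (A := On) F
  have : Tm Set.univ On (fun _ => k) := Tm.ofOrd k0
  obtain ⟨o', ho⟩ := od_map (G := gr (fun a => F a) k) (od_iff.2 inferInstance)
  obtain ⟨m, n, j, h0, e⟩ := hd.xe (max o (max o' (max r.rank X.rank)))
  simp only [max_lt_iff] at h0
  obtain ⟨g1, g2⟩ := ho e h0.2.1
  obtain ⟨R, r0, r1⟩ := H e h0.1
  have l1 : r ∈ V_ m := mem_vonNeumann.2 h0.2.2.1
  have l2 : X ∈ V_ m := mem_vonNeumann.2 h0.2.2.2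
  have l4 := sub_V l2 x1
  obtain ⟨b, b1, b2⟩ := e.tfA2 (fun d r g => ∀ a, a ∈ d → Sv g →
    (∀ x y, pair x y ∈ g → x ∈ a ∧ y ∈ r) → ∃ b, b ∈ r ∧ ∀ x y, pair x y ∈ g → y ∈ b) e.mem l1
    (fun g _ a ha g1 g2 => by
      obtain ⟨b, b1, b2⟩ := hc (img (app g) a ∩ r) (fun z hz => (mem_inter.1 hz).2)
        (((card_mono fun z hz => (mem_inter.1 hz).1).trans (card_img_le _ _)).trans_lt
          (e.regular.card_lt ha))
      exact ⟨b, b1, fun x y h1 => b2 y (mem_inter.2 ⟨mem_img.2 ⟨x, (g2 x y h1).1,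
        app_eq h1 (g1 x y h1)⟩, (g2 x y h1).2⟩)⟩) (gr j r)
    (gr_V e.lim' (e.le l1) (e.map _ l1) fun a ha => e.jmem ha l1) r (e.mem_jd hr l1) (sv_gr _ _)
    fun a y h1 => ⟨(pair_mem_gr.1 h1).1, (pair_mem_gr.1 h1).2 ▸ e.jmem (pair_mem_gr.1 h1).1 l1⟩
  obtain ⟨i, y, y1, y2, y3⟩ := (e.tf3 (fun G x r => ∀ b, b ∈ r → ∃ i y, pair i y ∈ G ∧
      (∀ a w, pair a w ∈ y → pair a w ∈ x) ∧ ∀ a w, pair a w ∈ x → a ∈ b → pair a w ∈ y)
    g1 l4 l1).1 (fun b hb => by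
      obtain ⟨i, hi, e⟩ := f1 _ (mem_img.2 ⟨b, hb, rfl⟩)
      exact ⟨i, _, pair_mem_gr.2 ⟨hi, e⟩, fun a w h1 => (mem_inter.1 h1).1, fun a w h1 h2 =>
        mem_inter.2 ⟨h1, pair_mem_prod.2 ⟨h2, (pair_mem_prod.1 (hx h1)).2⟩⟩⟩) b b1
  have : Tm Set.univ On (fun _ => i) := Tm.ofOrd ((e.tf1 (fun G => ∀ i y, pair i y ∈ G →
    i.IsOrdinal) g1).1 (fun i y h1 => k0.mem (pair_mem_gr.1 h1).1) i y y1)
  have := od_iff.1 g2
  have := od_iff.1 r0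
  have := od_iff.1 x0
  have : Tm Set.univ On (fun _ => y) :=
    app_eq y1 ((e.tf1 Sv g1).1 (sv_gr _ _) _ _ y1) ▸ inferInstance
  have y4 : ∀ z ∈ X, j z ∈ y ↔ z ∈ x := fun z hz => by
    obtain ⟨a, a1, w, rfl⟩ := x2 z hz
    have a2 := mem_V hz l2
    rw [← e.mem_iff a2 l4, (e.tf3 (fun z a w => z = pair a w) a2
      (fst_in (isTransitive_vonNeumann m) a2) (snd_in (isTransitive_vonNeumann m) a2)).1 rfl]
    exact ⟨y2 _ _, fun h1 => y3 _ _ h1 (b2 _ _ (pair_mem_gr.2 ⟨a1, rfl⟩))⟩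
  refine od_iff.2 (Tm.of (fun _ => X.sep fun z => ∃ w, w ∈ y ∧ pair z w ∈ R) inferInstance
    fun _ _ => ZFSet.ext fun z => ?_)
  rw [mem_sep]
  exact ⟨fun ⟨h1, w, h2, h3⟩ => (y4 z h1).1 ((r1 z h1 w).1 h3 ▸ h2),
    fun hz => ⟨x1 hz, _, (y4 z (x1 hz)).2 hz, (r1 z (x1 hz) _).2 rfl⟩⟩

theorem colIn_img {m n : Ordinal.{u}} {j : ZFSet.{u} → ZFSet.{u}} (e : XE m n j d)
    {k : ZFSet.{u}} (hk : k.IsOrdinal) (k1 : k ∈ V_ m) {a : ZFSet.{u}} (ha : a ∈ k) :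
    colIn (img j k) (j a) = a := by
  have ho : ∀ y ∈ img j k, y.IsOrdinal := fun y hy => (e.jord hk k1).mem (e.img_sub k1 hy)
  induction a using ZFSet.inductionOn with
  | _ a ih =>
  refine ZFSet.ext fun z => (H46.mem_colIn ho (mem_img.2 ⟨a, ha, rfl⟩)).trans ⟨?_, fun hz => ?_⟩
  · rintro ⟨_, h1, h2, rfl⟩
    obtain ⟨b, hb, rfl⟩ := mem_img.1 h1
    have h3 := (e.mem_iff (mem_V hb k1) (mem_V ha k1)).1 h2
    rwa [ih b h3 hb]
  · have h1 := hk.mem_trans hz ha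
    exact ⟨_, mem_img.2 ⟨z, h1, rfl⟩, e.jmem hz (mem_V ha k1), ih z hz h1⟩

theorem near (hd : Extendible d) {t : ZFSet.{u}} (ht : Regular Set.univ t) (hdt : d ⊆ t)
    (hn : ¬ StronglyMeasurable Set.univ t) {X : ZFSet.{u}} (x0 : OD Set.univ X)
    (x1 : ∀ z ∈ X, OD Set.univ z) (x2 : ∃ z, z ∈ X) : ∃ o : Ordinal.{u},
    ∀ {m n j}, XE m n j d → o < m → ∃ R, OD Set.univ R ∧
      ∀ z ∈ X, ∀ w, pair z w ∈ R ↔ w = j z := by
  obtain ⟨k, k0, k1, k2⟩ := od_enum x0 x1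
  obtain ⟨t, s, t0, s0, s1, s2⟩ := hd.up ht hdt hn k1
    (x2.elim fun z hz => ⟨_, mem_img.2 ⟨z, hz, rfl⟩⟩)
  have := Tm.one (C := Set.univ) (A := On) k
  have := od_iff.1 x0
  obtain ⟨o1, h1⟩ := od_map s0
  obtain ⟨o2, h2⟩ := od_map (G := gr (fun a => k a) X) (od_iff.2 inferInstance)
  obtain ⟨o3, h3⟩ := od_map x0
  refine ⟨max o1 (max o2 (max o3 (max t.rank (img k X).rank))), fun {m n j} e h0 => ?_⟩
  simp only [max_lt_iff] at h0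
  obtain ⟨a1, a2⟩ := h1 e h0.1
  obtain ⟨a3, a4⟩ := h2 e h0.2.1
  obtain ⟨a5, a6⟩ := h3 e h0.2.2.1
  have a7 : img k X ∈ V_ m := mem_vonNeumann.2 h0.2.2.2.2
  have := od_iff.1 (e.solovay t0 (mem_vonNeumann.2 h0.2.2.2.1) k1 a7 a1 a2 s1 s2)
  have := od_iff.1 a4
  have := od_iff.1 a6
  refine ⟨(prod X (j X)).sep fun p => ∃ b, b ∈ img j (img k X) ∧
    colIn (img j (img k X)) b = k (fst p) ∧ pair (snd p) b ∈ j (gr (fun a => k a) X),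
    od_iff.2 inferInstance, fun z hz w => ?_⟩
  have a8 := e.pmem (pair_mem_gr.2 ⟨hz, rfl⟩ : pair z (k z) ∈ gr (fun a => k a) X) a3
  have a9 : k z ∈ img k X := mem_img.2 ⟨z, hz, rfl⟩
  rw [mem_sep, pair_mem_prod, fst_pair, snd_pair]
  refine ⟨fun ⟨_, _, b1, b2, b3⟩ => ?_, fun h => h ▸ ⟨⟨hz, e.jmem hz a5⟩, _,
    mem_img.2 ⟨_, a9, rfl⟩, colIn_img e k1 a7 a9, a8⟩⟩
  obtain ⟨b, hb, rfl⟩ := mem_img.1 b1
  rw [colIn_img e k1 a7 hb] at b2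
  exact (e.tf2 (fun K X => ∀ w b, pair w b ∈ K → ∀ w', w' ∈ X → pair w' b ∈ K → w = w') a3 a5).1
    (fun w b h4 w' h5 h6 => k2 w (pair_mem_gr.1 h4).1 w' h5
      ((pair_mem_gr.1 h4).2.trans (pair_mem_gr.1 h6).2.symm)) _ _ b3 _ (e.jmem hz a5) (b2 ▸ a8)

theorem main (hd : Extendible d) (hr : r.IsOrdinal) (hc : H57F.Bd (card d) r)
    (hx : x ⊆ prod r Y) (h : ∀ a ∈ r, HOD Set.univ (x ∩ prod a Y)) : HOD Set.univ x := by
  obtain ⟨m, n, j, -, e⟩ := hd.xe 0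
  have hu : Unc r := ⟨hr, fun y h1 h2 => hc y h1 (h2.trans_lt (e.regular.card_lt e.omega))⟩
  have x1 : ∀ z ∈ x, ∃ a ∈ r, z ∈ prod a Y := fun z hz => by
    obtain ⟨a, ha, w, hw, rfl⟩ := mem_prod.1 (hx hz)
    obtain ⟨c, c1, c2⟩ := hu.succ ha
    exact ⟨c, c1, pair_mem_prod.2 ⟨c2, hw⟩⟩
  have x2 : ∀ z ∈ x, HOD Set.univ z := fun z hz => by
    obtain ⟨a, a1, a2⟩ := x1 z hz
    exact (h a a1).mem (mem_inter.2 ⟨hz, a2⟩)
  have y1 : ∀ a, prod a Y ⊆ prod a (V_ Y.rank) := fun a z hz => by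
    obtain ⟨b, hb, w, hw, rfl⟩ := mem_prod.1 hz
    exact pair_mem_prod.2 ⟨hb, ord_mem_V hw⟩
  have := od_V Y.rank
  have : Tm Set.univ On (fun _ => r) := Tm.ofOrd hr
  refine hereditarily_iff.2 ⟨?_, x2⟩
  by_cases hs : StronglyMeasurable Set.univ d
  · obtain ⟨c, c1, c2⟩ := hd.exists_sc hr
    obtain ⟨g, g1, g2⟩ := H57F.gap_of_sm c2.1 c1 hs
    refine H57F.od_of_traces c2.1 (H57F.refl_bd c2 hu (hc.mono (e.regular.card_lt c1).le)) hu g2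
      (hc.mono (succ_le_of_lt (e.sl g1))) (fun a => prod a (V_ Y.rank)) inferInstance
      (fun b _ a ha z hz => ?_) (W := prod r (V_ Y.rank)) (od_iff.2 inferInstance)
      (fun z hz => y1 r (hx hz)) (fun z hz => (x1 z hz).imp fun a ha => ⟨ha.1, y1 a ha.2⟩)
      fun a ha => ?_
    · obtain ⟨c, hc, w, hw, rfl⟩ := mem_prod.1 hz
      exact pair_mem_prod.2 ⟨(hr.mem ‹b ∈ r›).mem_trans hc ha, hw⟩
    · rw [show x ∩ prod a (V_ Y.rank) = x ∩ prod a Y from ZFSet.ext fun z => ?_]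
      · exact (h a ha).self
      simp only [mem_inter]
      refine and_congr_right fun hz => ⟨fun h1 => ?_, fun h1 => y1 a h1⟩
      obtain ⟨b, -, w, hw, rfl⟩ := mem_prod.1 (hx hz)
      exact pair_mem_prod.2 ⟨(pair_mem_prod.1 h1).1, hw⟩
  by_cases h0 : ∃ z, z ∈ x
  swap
  · rw [show x = ∅ from (eq_empty x).2 fun z hz => h0 ⟨z, hz⟩]
    exact od_iff.2 inferInstance
  have x0 : OD Set.univ ((prod r (V_ Y.rank)).sep fun z => OD Set.univ z) :=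
    od_iff.2 inferInstance
  have x3 : x ⊆ (prod r (V_ Y.rank)).sep fun z => OD Set.univ z :=
    fun z hz => mem_sep.2 ⟨y1 r (hx hz), (x2 z hz).self⟩
  obtain ⟨o, ho⟩ := near hd e.regular subset_rfl hs x0 (fun z hz => (mem_sep.1 hz).2)
    (h0.imp fun z hz => x3 hz)
  refine core hd hr hc hx (fun a ha => (h a ha).self) x0 x3 (fun z hz => ?_) o ho
  obtain ⟨a, ha, w, -, rfl⟩ := mem_prod.1 (mem_sep.1 hz).1
  exact ⟨a, ha, w, rfl⟩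

end Pool.Agent.MP_ecfd11_lc.H13F
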