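import Pool.Agent.MP_ecfd11_lc.H13F.Base

/-!
Extendible cardinals are strongly compact; continuity of the embeddings.
-/

set_option synthInstance.maxSize 4000

namespace Pool.Agent.MP_ecfd11_lc.H13F

open Pool.Agent.MP_ecfd11_lc.H20 Pool.Agent.MP_ecfd11_lc.H13X Pool.Agent.MP_ecfd11_lc.H3U

universe u

open ZFSet Cardinal Order Function

theorem sv_of_func {a b f : ZFSet.{u}} (hf : IsFunc a b f) : Sv f :=
  fun x _ h1 _ h2 => (hf.2 x (pair_mem_prod.1 (hf.1 h1)).1).unique h2 h1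

namespace XE

variable {m n : Ordinal.{u}} {j : ZFSet.{u} → ZFSet.{u}} {d a b f l : ZFSet.{u}}
  (h : XE m n j d)
include h

theorem val (hf : IsFunc a b f) (f1 : f ∈ V_ m) (ha : a ∈ d) {x y : ZFSet.{u}}
    (hxy : pair x y ∈ j f) : ∃ z, pair x z ∈ f ∧ y = j z := by
  have h1 := (h.tf2 (fun f a => ∀ x y, pair x y ∈ f → x ∈ a) f1 (mem_V ha h.mem)).1
    (fun x y h1 => (pair_mem_prod.1 (hf.1 h1)).1) x y hxy
  rw [h.fix a ha] at h1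
  obtain ⟨z, hz⟩ := (hf.2 x h1).exists
  have h2 := h.pmem hz f1
  rw [h.fix x (h.ord.mem_trans h1 ha)] at h2
  exact ⟨z, hz, (h.tf1 Sv f1).1 (sv_of_func hf) x _ h2 y hxy⟩

theorem regular : Regular Set.univ d := by
  refine ⟨h.ord, h.omega, fun a ha f _ hf => ?_⟩
  have f1 : f ∈ V_ m := sub_V (prod_V h.lim (mem_V ha h.mem) h.mem) hf.1
  refine (h.tf2 (fun d f => ∃ b, b ∈ d ∧ ∀ x y, pair x y ∈ f → y ∈ b) h.mem f1).2
    ⟨d, h.mem_jd h.ord h.mem, fun x y hxy => ?_⟩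
  obtain ⟨z, h1, rfl⟩ := h.val hf f1 ha hxy
  have h2 := (pair_mem_prod.1 (hf.1 h1)).2
  rwa [h.fix z h2]

theorem jreg (hl : Regular Set.univ l) (l1 : l ∈ V_ m) : Regular Set.univ (j l) := by
  refine ⟨h.jord hl.1 l1, by simpa only [h.fix _ h.omega] using h.jmem hl.2.1 l1,
    fun a ha f _ hf => ?_⟩
  refine h.tfA1 (fun l f => ∀ a, a ∈ l → Sv f → (∀ x y, pair x y ∈ f → x ∈ a ∧ y ∈ l) →
    ∃ b, b ∈ l ∧ ∀ x y, pair x y ∈ f → y ∈ b) l1 (fun f _ x hx f1 f2 => ?_) f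
    (sub_V (prod_V h.lim' (mem_V ha (h.map _ l1)) (h.map _ l1)) hf.1) a ha (sv_of_func hf)
    fun x y h1 => pair_mem_prod.1 (hf.1 h1)
  classical
  obtain ⟨b, h1, h2⟩ := hl.bddV (hl.card_lt hx) (fun i => if app f i ∈ l then app f i else x)
    fun i _ => by split_ifs with e; exacts [e, hx]
  refine ⟨b, h1, fun a y h3 => ?_⟩
  have := h2 a (f2 a y h3).1
  rwa [app_eq h3 (f1 a y h3), if_pos (f2 a y h3).2] at this

theorem cont (ha : CofOmega Set.univ a) (a1 : a ∈ V_ m) :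
    CofOmega Set.univ (j a) ∧ ∀ b ∈ j a, ∃ c ∈ a, b ∈ j c := by
  obtain ⟨a0, f, -, f1, f2⟩ := ha
  have f0 : f ∈ V_ m := sub_V (prod_V h.lim (mem_V h.omega h.mem) a1) f1.1
  have h1 : ∀ b ∈ j a, ∃ i z, pair i z ∈ f ∧ b ∈ j z := fun b hb => by
    obtain ⟨i, y, h1, h2⟩ := (h.tf2 (fun a f => ∀ b, b ∈ a → ∃ i y, pair i y ∈ f ∧ b ∈ y)
      a1 f0).1 f2 b hb
    obtain ⟨z, h3, rfl⟩ := h.val f1 f0 h.omega h1
    exact ⟨i, z, h3, h2⟩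
  refine ⟨⟨h.jord a0 a1, gr (fun i => j (app f i)) om, trivial,
    isFunc_gr fun i hi => h.jmem (f1.app_mem' hi) a1, fun b hb => ?_⟩, fun b hb => ?_⟩ <;>
    obtain ⟨i, z, h2, h3⟩ := h1 b hb
  · exact ⟨i, _, pair_mem_gr.2 ⟨(pair_mem_prod.1 (f1.1 h2)).1, rfl⟩, f1.app_eq h2 ▸ h3⟩
  · exact ⟨z, (pair_mem_prod.1 (f1.1 h2)).2, h3⟩

theorem sc (hl : l.IsOrdinal) (l1 : l ∈ V_ m) : StronglyCompact d l := by
  have hr := h.regular
  have p0 := pow_V h.lim l1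
  have p1 : ∀ p : ZFSet.{u} → Prop, (powerset l).sep p ∈ V_ m := fun p => sub_V p0 sep_subset
  have s1 := h.jpow l1 (h.img_sub l1)
  have c2 : (2 : Cardinal.{u + 1}) < lift.{u + 1} (card d) := by
    have : lift.{u + 1} (ℵ₀ : Cardinal.{u}) < lift.{u + 1} (card d) := lift_lt.2 hr.aleph0_lt
    rw [lift_aleph0] at this
    exact (natCast_lt_aleph0 (n := 2)).trans this
  have c4 : ∀ A B : Set ZFSet.{u},
      A ∈ {A : Set ZFSet.{u} | img j l ∈ j ((powerset l).sep fun s => s ∈ A)} → A ⊆ B →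
      B ∈ {A : Set ZFSet.{u} | img j l ∈ j ((powerset l).sep fun s => s ∈ A)} :=
    fun A B (h1 : img j l ∈ _) h2 => show img j l ∈ _ from h.jsub
      (fun s hs => mem_sep.2 ⟨(mem_sep.1 hs).1, h2 (mem_sep.1 hs).2⟩) (p1 fun s => s ∈ B) h1
  have c3 : ∀ S : Set (Set ZFSet.{u}), #S < lift.{u + 1} (card d) →
      S ⊆ {A | img j l ∈ j ((powerset l).sep fun s => s ∈ A)} →
      ⋂₀ S ∈ {A : Set ZFSet.{u} | img j l ∈ j ((powerset l).sep fun s => s ∈ A)} := by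
    intro S hS h1
    obtain ⟨c, c0, c1⟩ := lt_lift_iff.1 hS
    have hx : c.ord.toZFSet ∈ d := hr.mem_of_card_lt (isOrdinal_toZFSet _) (by rwa [card_ord'])
    have e : #(c.ord.toZFSet) = #S := by rw [cardinalMk_coe_sort, card_ord', c1]
    obtain ⟨e⟩ := Cardinal.eq.1 e
    have g1 := isFunc_gr (F := fun i => (powerset l).sep fun s =>
      ∀ hi : i ∈ c.ord.toZFSet, s ∈ (e ⟨i, hi⟩).1) (x := c.ord.toZFSet)
      (y := powerset (powerset l)) fun _ _ => mem_powerset.2 sep_subset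
    have g2 := sub_V (prod_V h.lim (mem_V hx h.mem) (pow_V h.lim p0)) g1.1
    refine (h.tf3 (fun P g Y => ∀ s, s ∈ P → (∀ i y, pair i y ∈ g → s ∈ y) → s ∈ Y) p0 g2
      (p1 _)).1 (fun s hs h2 => mem_sep.2 ⟨hs, fun A hA => ?_⟩) _ s1 fun i y h2 => ?_
    · have := (mem_sep.1 (h2 _ _ (pair_mem_gr.2 ⟨(e.symm ⟨A, hA⟩).2, rfl⟩))).2
        (e.symm ⟨A, hA⟩).2
      simpa using this
    · obtain ⟨z, h3, rfl⟩ := h.val g1 g2 hx h2
      obtain ⟨h4, rfl⟩ := pair_mem_gr.1 h3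
      exact h.jsub (fun s hs => mem_sep.2 ⟨(mem_sep.1 hs).1, fun _ => (mem_sep.1 hs).2⟩) (p1 _)
        (show img j l ∈ j ((powerset l).sep fun s => s ∈ (e ⟨i, h4⟩).1) from h1 (e ⟨i, h4⟩).2)
  refine ⟨hr, Ultrafilter.ofComplNotMemIff (Filter.ofCardinalInter _ c2 c3 c4) fun A =>
    ⟨fun h1 => ?_, fun h1 h2 => ?_⟩, Filter.cardinalInter_ofCardinalInter _ c2 c3 c4, ?_,
    fun a ha => ?_⟩
  · exact ((h.tf3 (fun P Y Z => ∀ s, s ∈ P → s ∈ Y ∨ s ∈ Z) p0 (p1 fun s => s ∈ A)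
      (p1 fun s => s ∈ Aᶜ)).1 (fun s hs => (em (s ∈ A)).imp (fun h2 => mem_sep.2 ⟨hs, h2⟩)
        fun h2 => mem_sep.2 ⟨hs, h2⟩) _ s1).resolve_right h1
  · exact (h.tf2 (fun Y Z => ∀ s, s ∈ Y → s ∉ Z) (p1 fun s => s ∈ A)
      (p1 fun s => s ∈ Aᶜ)).1 (fun s h3 h4 => (mem_sep.1 h4).2 (mem_sep.1 h3).2) (img j l) h1 h2
  · refine h.tfA3 (fun P d Y g => ∀ s, s ∈ P → ∀ x, x ∈ d → Sv g →
      (∀ b, b ∈ s → ∃ a, a ∈ x ∧ pair a b ∈ g) → s ∈ Y) p0 h.mem (p1 _)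
      (fun g _ s hs x hx g1 g2 => mem_sep.2 ⟨hs, mem_powerset.1 hs,
        (card_le_of_surj (app g) fun b hb => ?_).trans_lt (hr.card_lt hx)⟩) (gr j l)
      (gr_V h.lim' (h.le l1) (h.map _ l1) fun a ha => h.jmem ha l1) _ s1 l (h.mem_jd hl l1)
      (sv_gr _ _) fun b hb => (mem_img.1 hb).imp fun a ha => ⟨ha.1, pair_mem_gr.2 ha⟩
    obtain ⟨a, ha, h2⟩ := g2 b hb
    exact ⟨a, ha, app_eq h2 (g1 a b h2)⟩
  · exact (h.tf3 (fun P a Y => ∀ s, s ∈ P → a ∈ s → s ∈ Y) p0 (mem_V ha l1) (p1 _)).1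
      (fun s h1 h2 => mem_sep.2 ⟨h1, h2⟩) _ s1 (mem_img.2 ⟨a, ha, rfl⟩)

end XE

end Pool.Agent.MP_ecfd11_lc.H13F
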