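import Pool.Agent.MP_ecfd11_lc.H13F.Sc

/-!
Solovay's lemma for extendibility embeddings.
-/

set_option synthInstance.maxSize 4000

namespace Pool.Agent.MP_ecfd11_lc.H13F

open Pool.Agent.MP_ecfd11_lc.H20 Pool.Agent.MP_ecfd11_lc.H13X Pool.Agent.MP_ecfd11_lc.H3U

universe u

open ZFSet Cardinal Order Function Filter

/-- `s` is a family of pairwise disjoint sets indexed by `k`. -/
def Dis (k s : ZFSet.{u}) : Prop :=
  ∀ i S, pair i S ∈ s → i ∈ k ∧ ∀ i' T, pair i' T ∈ s → ∀ x, x ∈ S → x ∈ T → i = i'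

/-- `g` is a cofinal function from `o` to `x`. -/
def Cw (o x g : ZFSet.{u}) : Prop :=
  (∀ z, z ∈ g → ∃ a, a ∈ o ∧ ∃ b, b ∈ x ∧ z = pair a b) ∧ (∀ a, a ∈ o → ∃ b, pair a b ∈ g) ∧
    Sv g ∧ ∀ b, b ∈ x → ∃ i y, pair i y ∈ g ∧ b ∈ y

/-- `f` is an injection of `t` into the power set of `k`, or a family of `k` disjoint stationary
sets of points of cofinality `o`, as seen in `N`. -/
def Wit (N o t k f : ZFSet.{u}) : Prop :=
  ((∀ a, a ∈ t → ∃ y, pair a y ∈ f ∧ y ⊆ k) ∧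
    ∀ a y, pair a y ∈ f → ∀ a', a' ∈ t → pair a' y ∈ f → a = a') ∨
  (Dis k f ∧ ∀ i, i ∈ k → ∃ S, pair i S ∈ f ∧ ∀ c, c ∈ N → Club t c →
    ∃ x, x ∈ S ∧ x ∈ c ∧ ∃ g, g ∈ N ∧ Cw o x g)

section

variable {M : ZFSet.{u}} [Fact M.IsTransitive]

instance E.dis (i k : ℕ) : E M fun v => Dis (v i) (v k) := by unfold Dis; infer_instance

instance E.cw (i k l : ℕ) : E M fun v => Cw (v i) (v k) (v l) := by unfold Cw; infer_instance

instance E.club (i k : ℕ) : E M fun v => Club (v i) (v k) := by unfold Club; infer_instance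

instance E.wit (i k l m n : ℕ) : E M fun v => Wit (v i) (v k) (v l) (v m) (v n) := by
  unfold Wit; infer_instance

end

theorem cof_iff {x : ZFSet.{u}} : CofOmega Set.univ x ↔ x.IsOrdinal ∧ ∃ g, Cw om x g := by
  refine and_congr_right fun _ => exists_congr fun g => ⟨fun ⟨_, g1, g2⟩ =>
    ⟨fun z hz => mem_prod.1 (g1.1 hz), fun a ha => (g1.2 a ha).exists, sv_of_func g1, g2⟩,
    fun ⟨g1, g2, g3, g4⟩ => ⟨trivial, ⟨fun z hz => mem_prod.2 (g1 z hz), fun a ha => ?_⟩, g4⟩⟩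
  obtain ⟨b, hb⟩ := g2 a ha
  exact ⟨b, hb, fun z hz => g3 a b hb z hz⟩

theorem XE.solovay {m n : Ordinal.{u}} {j : ZFSet.{u} → ZFSet.{u}} {d t k s : ZFSet.{u}}
    (h : XE m n j d) (ht : Regular Set.univ t) (t1 : t ∈ V_ m) (hk : k.IsOrdinal)
    (k1 : k ∈ V_ m) (s1 : s ∈ V_ m) (s0 : OD Set.univ (j s)) (s2 : Dis k s)
    (s3 : ∀ i ∈ k, ∃ S, pair i S ∈ s ∧ ¬ Null t (S.sep (CofOmega Set.univ))) :
    OD Set.univ (img j k) := by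
  have hu := unc_of_regular ht
  have a1 : ∀ a ∈ t, a ∈ V_ m := fun a ha => mem_V ha t1
  have a2 : ∀ a ∈ t, (j a).IsOrdinal := fun a ha => h.jord (ht.1.mem ha) (a1 a ha)
  obtain ⟨g, hg⟩ : ∃ g : ZFSet.{u}, g = ⋃₀ img j t := ⟨_, rfl⟩
  have g1 : ∀ z, z ∈ g ↔ ∃ a ∈ t, z ∈ j a := fun z => by
    rw [hg, mem_sUnion]
    refine ⟨fun ⟨_, h1, h2⟩ => ?_, fun ⟨a, h1, h2⟩ => ⟨_, mem_img.2 ⟨a, h1, rfl⟩, h2⟩⟩
    obtain ⟨a, h3, rfl⟩ := mem_img.1 h1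
    exact ⟨a, h3, h2⟩
  have g0 : g.IsOrdinal := hg ▸ isOrdinal_sUnion fun y hy => by
    obtain ⟨a, ha, rfl⟩ := mem_img.1 hy
    exact a2 a ha
  have g2 : ∀ a ∈ t, j a ∈ g := fun a ha => by
    obtain ⟨c, c1, c2⟩ := hu.succ ha
    exact (g1 _).2 ⟨c, c1, h.jmem c2 (a1 c c1)⟩
  have g3 : Unc g := ⟨g0, fun y y1 y2 => by
    choose! A b1 b2 using fun z (hz : z ∈ y) => (g1 z).1 (y1 hz)
    obtain ⟨b, b3, b4⟩ := ht.bddV (y2.trans_lt (ht.card_lt ht.2.1)) A b1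
    exact ⟨j b, g2 b b3, fun z hz => (a2 b b3).mem_trans (b2 z hz) (h.jmem (b4 z hz) (a1 b b3))⟩⟩
  have : Tm Set.univ On (fun _ => g) := Tm.ofOrd g0
  have : Tm Set.univ On (fun _ => j k) := Tm.ofOrd (h.jord hk k1)
  have := od_iff.1 s0
  refine od_iff.2 (Tm.of (fun _ => (j k).sep fun i => ∃ S, pair i S ∈ j s ∧
    ¬ Null g (S.sep fun x => CofOmega Set.univ x)) inferInstance fun _ _ => ZFSet.ext fun i => ?_)
  rw [mem_sep, mem_img]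
  constructor
  · rintro ⟨-, S, h1, h2⟩
    obtain ⟨b, b1, b2⟩ : ∃ b ∈ S.sep fun x => CofOmega Set.univ x, b ∈ H20.lim g (img j t) := by
      by_contra h3
      refine h2 ⟨_, g3.club_lim (X := img j t) (fun z hz => ?_) fun z hz => ?_,
        fun x hx h4 => h3 ⟨x, hx, h4⟩⟩
      · obtain ⟨a, ha, rfl⟩ := mem_img.1 hz
        exact g2 a ha
      · obtain ⟨a, ha, h4⟩ := (g1 z).1 hz
        exact ⟨_, mem_img.2 ⟨a, ha, rfl⟩, h4⟩
    obtain ⟨b3, b0, F, -, f1, f2⟩ := mem_sep.1 b1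
    obtain ⟨b4, -, b5⟩ := mem_sep.1 b2
    have b6 : ∀ z ∈ b, ∃ a ∈ t.sep fun a => j a ∈ b, z ∈ j a := fun z hz => by
      obtain ⟨_, h3, h4, h5⟩ := b5 z hz
      obtain ⟨a, ha, rfl⟩ := mem_img.1 h3
      exact ⟨a, mem_sep.2 ⟨ha, h5⟩, h4⟩
    obtain ⟨a, ha⟩ : ∃ a, a = t.sep fun a => j a ∈ b := ⟨_, rfl⟩
    have c1 : ∀ x, x ∈ a ↔ x ∈ t ∧ j x ∈ b := fun x => by rw [ha, mem_sep]
    rw [← ha] at b6
    have c0 : a.IsOrdinal := isOrdinal_iff_forall_mem_isOrdinal.2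
      ⟨fun x hx y hy => (c1 y).2 ⟨ht.1.mem_trans hy ((c1 x).1 hx).1,
        b0.mem_trans (h.jmem hy (a1 x ((c1 x).1 hx).1)) ((c1 x).1 hx).2⟩,
        fun x hx => ht.1.mem ((c1 x).1 hx).1⟩
    have c2 : a ∈ V_ m := sub_V t1 fun x hx => ((c1 x).1 hx).1
    have c3 : CofOmega Set.univ a := by
      choose! A e1 e2 using b6
      refine ⟨c0, gr (fun i => A (app F i)) om, trivial,
        isFunc_gr fun i hi => e1 _ (f1.app_mem' hi), fun x hx => ?_⟩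
      obtain ⟨i, y, h3, h4⟩ := f2 _ ((c1 x).1 hx).2
      obtain ⟨h5, h6⟩ := pair_mem_prod.1 (f1.1 h3)
      refine ⟨i, _, pair_mem_gr.2 ⟨h5, rfl⟩, ?_⟩
      rw [f1.app_eq h3]
      exact (h.mem_iff (mem_V hx c2) (mem_V (e1 y h6) c2)).1
        ((a2 _ ((c1 _).1 (e1 y h6)).1).mem_trans h4 (e2 y h6))
    have c4 : j a = b := ZFSet.ext fun z => ⟨fun hz => by
      obtain ⟨c, h3, h4⟩ := (h.cont c3 c2).2 z hz
      exact b0.mem_trans h4 ((c1 c).1 h3).2, fun hz => by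
      obtain ⟨c, h3, h4⟩ := b6 z hz
      exact (h.jord c0 c2).mem_trans h4 (h.jmem h3 c2)⟩
    obtain ⟨i', T, h3, h4⟩ := (h.tf2 (fun s a => ∃ i T, pair i T ∈ s ∧ a ∈ T) s1 c2).2
      ⟨i, S, h1, c4 ▸ b3⟩
    refine ⟨i', (s2 _ _ h3).1, (((h.tf2 Dis k1 s1).1 s2 _ _ h1).2 _ _ (h.pmem h3 s1) b b3 ?_).symm⟩
    exact c4 ▸ h.jmem h4 (snd_in (isTransitive_vonNeumann m) (mem_V h3 s1))
  · rintro ⟨i, hi, rfl⟩
    obtain ⟨S, h1, h2⟩ := s3 i hi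
    refine ⟨h.jmem hi k1, j S, h.pmem h1 s1, fun ⟨c, c1, c2⟩ => ?_⟩
    have := neBot hu h2
    obtain ⟨a, h3, h4, h5, h6⟩ := ((ev_diag (S := S.sep (CofOmega Set.univ)) ht
      (p := fun b L => ∃ a ∈ L, ∃ z ∈ c, j b ∈ z ∧ z ∈ j a) fun b hb => by
        obtain ⟨z, z1, z2⟩ := c1.2.1 _ (g2 b hb)
        obtain ⟨a, z3, z4⟩ := (g1 z).1 (c1.1 z1)
        filter_upwards [ev_above hu z3] with L hL using ⟨a, hL, z, z1, z2, z4⟩).and
      ((ev_above hu hu.empty_mem).and (ev_mem hu))).exists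
    obtain ⟨h7, h8⟩ := mem_sep.1 h5
    obtain ⟨e1, e2⟩ := h.cont h8 (a1 a h6)
    refine c2 (j a) (mem_sep.2 ⟨h.jmem h7 (snd_in (isTransitive_vonNeumann m) (mem_V h1 s1)), e1⟩)
      (c1.2.2 _ (g2 a h6) ⟨_, h.jmem h4 (a1 a h6)⟩ fun b hb => ?_)
    obtain ⟨b', e3, e4⟩ := e2 b hb
    obtain ⟨a', e5, z, e6, e7, e8⟩ := h3 b' e3
    exact ⟨z, e6, (g0.mem (c1.1 e6)).mem_trans e4 e7,
      e1.1.mem_trans e8 (h.jmem e5 (a1 a h6))⟩

/-- One regular cardinal that is not strongly measurable gives long definable partitions. -/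
theorem Extendible.up {d t k : ZFSet.{u}} (hd : Extendible d) (ht : Regular Set.univ t)
    (hdt : d ⊆ t) (hn : ¬ StronglyMeasurable Set.univ t) (hk : k.IsOrdinal) (k0 : ∃ z, z ∈ k) :
    ∃ t s, Regular Set.univ t ∧ OD Set.univ s ∧ Dis k s ∧
      ∀ i ∈ k, ∃ S, pair i S ∈ s ∧ ¬ Null t (S.sep (CofOmega Set.univ)) := by
  have : Tm Set.univ On (fun _ => t) := Tm.ofOrd ht.1
  have : Df Set.univ On fun v => IsPartition Set.univ t (v 0) (v 1) := by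
    unfold IsPartition; infer_instance
  obtain ⟨F, f0, f1⟩ := od_choice (C := Set.univ) t
    (fun a f => a ≠ ∅ → IsInj t (powerset a) f ∨ IsPartition Set.univ t a f) fun a ha => by
      by_cases e : a = ∅
      · exact ⟨∅, od_iff.2 inferInstance, fun h => absurd e h⟩
      by_contra h1
      exact hn ⟨ht, a, ha, e, fun ⟨f, h2, h3⟩ => h1 ⟨f, h2.self, fun _ => Or.inl h3⟩,
        fun ⟨f, h2, h3⟩ => h1 ⟨f, h2.self, fun _ => Or.inr h3⟩⟩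
  have := Tm.one (C := Set.univ) (A := On) F
  obtain ⟨o, ho⟩ := od_map (G := gr (fun a => F a) t) (od_iff.2 inferInstance)
  obtain ⟨m, n, j, h0, h⟩ := hd.xe (max o (max (rank t) (max (rank k) (card (powerset k)).ord)))
  simp only [max_lt_iff] at h0
  obtain ⟨g1, g2⟩ := ho h h0.1
  have t1 : t ∈ V_ m := mem_vonNeumann.2 h0.2.1
  have o1 := mem_V h.omega h.mem
  have w1 : t ∪ prod om t ∈ V_ m := mem_vonNeumann.2 (by
    rw [rank_union]; exact max_lt h0.2.1 (mem_vonNeumann.1 (prod_V h.lim o1 t1)))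
  have hr := h.jreg ht t1
  have k1 := h.jsub hdt t1 (h.mem_jd hk (mem_vonNeumann.2 h0.2.2.1))
  obtain ⟨f, h1, h2⟩ := (h.tf4 (fun G t N o => ∀ a, a ∈ t → (∃ z, z ∈ a) →
      ∃ f, pair a f ∈ G ∧ Wit N o t a f) g1 t1 (pow_V h.lim w1) o1).1 (fun a ha ⟨z, hz⟩ => by
    refine ⟨_, pair_mem_gr.2 ⟨ha, rfl⟩, (f1 a ha trivial fun e => notMem_empty z (e ▸ hz)).imp
      (fun h1 => ⟨fun b hb => ⟨_, h1.1.app_mem hb, mem_powerset.1 (h1.1.app_mem' hb)⟩,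
        fun b y h2 b' _ h3 => h1.2 b b' y h2 h3⟩)
      fun ⟨h1, h2, h3, _⟩ => ⟨fun i S h4 => ⟨(pair_mem_prod.1 (h1.1 h4)).1,
        fun i' T h5 x h6 h7 => by_contra fun e => h3 i S i' T h4 h5 e x h6 h7⟩,
        fun i hi => ⟨_, h1.app_mem hi, fun c _ hc => ?_⟩⟩⟩
    obtain ⟨h4, h5⟩ := h2 _ _ (h1.app_mem hi)
    obtain ⟨x, h6, h7⟩ := h4.2 c trivial hc
    obtain ⟨-, g, h8⟩ := cof_iff.1 (h5 x h6)
    refine ⟨x, h6, h7, g, mem_powerset.2 fun z hz => mem_union.2 (Or.inr ?_), h8⟩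
    obtain ⟨a, h9, b, hb, rfl⟩ := h8.1 z hz
    exact pair_mem_prod.2 ⟨h9, ht.1.mem_trans hb (hc.1 h7)⟩) k k1 k0
  rw [h.fix _ h.omega] at h2
  rcases h2 with ⟨h2, h3⟩ | ⟨h2, h3⟩
  · choose! Y y1 y2 using h2
    have h4 := hr.card_lt (h.jsub hdt t1 (h.mem_jd (isOrdinal_toZFSet (card (powerset k)).ord)
      (mem_vonNeumann.2 (by rw [Ordinal.rank_toZFSet]; exact h0.2.2.2))))
    rw [card_ord'] at h4
    exact absurd (card_le_of_inj Y (fun a ha => mem_powerset.2 (y2 a ha))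
      fun a ha b hb e => h3 a _ (y1 a ha) b hb (e ▸ y1 b hb)) h4.not_ge
  have := od_iff.1 g2
  have : Tm Set.univ On (fun _ => k) := Tm.ofOrd hk
  refine ⟨j t, f, hr, app_eq h1 ((h.tf1 Sv g1).1 (sv_gr _ _) _ _ h1) ▸ od_iff.2 inferInstance,
    h2, fun i hi => (h3 i hi).imp fun S h4 => ⟨h4.1, fun ⟨c, c1, c2⟩ => ?_⟩⟩
  obtain ⟨x, h5, h6, g, -, h7⟩ := h4.2 c (h.jpow w1 fun z hz =>
    h.jsub (fun y hy => mem_union.2 (Or.inl hy)) w1 (c1.1 hz)) c1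
  exact c2 x (mem_sep.2 ⟨h5, cof_iff.2 ⟨hr.1.mem (c1.1 h6), g, h7⟩⟩) h6

end Pool.Agent.MP_ecfd11_lc.H13F
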